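import Pool.Agent.V11294.Lu.Fin

/-!
# MP_1f3cf9_nt: Lucas sequences at index `(p-1)/4` with `b ≡ 4 (mod 8)`
-/

set_option autoImplicit false

open Pool.Agent.V11294.Lu

namespace Pool.Agent.Results.MP_1f3cf9_nt.LucasQuarter

/-- Lucas sequences `U_n = U_n(b, -1)`, `V_n = V_n(b, -1)` (`LU`, `LV`) at the index `(p - 1) / 4`, modulo `p`,
for `b ≡ 4 (mod 8)`, in terms of `p = c ^ 2 + d ^ 2 = x ^ 2 + (1 + b ^ 2 / 4) y ^ 2`. -/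
theorem result (p : ℕ) [Fact p.Prime] (hp4 : p % 4 = 1) (b : ℤ) (hb : b % 8 = 4)
    (_hne : (p : ℤ) ≠ 1 + b ^ 2 / 4) (c d x y : ℤ) (h1 : (p : ℤ) = c ^ 2 + d ^ 2)
    (h2 : (p : ℤ) = x ^ 2 + (1 + b ^ 2 / 4) * y ^ 2) (hc : c % 4 = 1)
    (hd : OddPartOne d) (hx : OddPartOne x) (hy : OddPartOne y) :
    ((x % 2 = 1 ∧ y % 2 = 0) ∨ (x % 2 = 0 ∧ y % 2 = 1)) ∧
    (x % 4 = 2 → 4 ∣ d ∧
      (LU b ((p - 1) / 4) : ZMod p) = (-1) ^ ((b + 4) / 8 + d / 4) * ((y : ZMod p) / (x : ZMod p)) ∧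
      (LV b ((p - 1) / 4) : ZMod p) = 0) ∧
    (y % 4 = 2 →
      (LU b ((p - 1) / 4) : ZMod p) = ((d : ZMod p) * (y : ZMod p)) / ((c : ZMod p) * (x : ZMod p)) ∧
      (LV b ((p - 1) / 4) : ZMod p) = 0) ∧
    (4 ∣ y → 4 ∣ d ∧
      (LU b ((p - 1) / 4) : ZMod p) = 0 ∧
      (LV b ((p - 1) / 4) : ZMod p) = 2 * (-1) ^ (d / 4 + y / 4)) ∧
    (4 ∣ x →
      (LU b ((p - 1) / 4) : ZMod p) = 0 ∧
      (LV b ((p - 1) / 4) : ZMod p) = 2 * (-1) ^ ((b - 4) / 8 + x / 4) * ((d : ZMod p) / (c : ZMod p))) := by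
  obtain ⟨ρ, hρ⟩ : ∃ ρ, b = 8 * ρ + 4 := ⟨b / 8, by omega⟩
  obtain ⟨bb, hbb⟩ : ∃ bb, bb = 4 * ρ + 2 := ⟨_, rfl⟩
  have hb2 : b = 2 * bb := by omega
  have hD : 1 + b ^ 2 / 4 = bb ^ 2 + 1 := by
    have : b ^ 2 = 4 * bb ^ 2 := by rw [hb2]; ring
    rw [this]; omega
  rw [hD] at h2
  have hDo : (bb ^ 2 + 1) % 2 = 1 := by
    have : bb ^ 2 + 1 = 2 * (8 * ρ ^ 2 + 8 * ρ + 2) + 1 := by rw [hbb]; ring
    omega
  have hpar := par h2 (by omega) hDo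
  have hp1 : (p - 1) / 4 = p / 4 := by omega
  rw [hp1, hb2]
  refine ⟨hpar, ?_, ?_, ?_, ?_⟩
  · intro h
    have hy1 := hy.odd (by omega)
    obtain ⟨q1, q2, q3⟩ := caseD3 h1 h2 hc hd hx h hy1 rfl hbb
    refine ⟨by omega, ?_⟩
    have e : (2 * bb + 4) / 8 + d / 4 = ρ + 1 + d / 4 := by omega
    rw [e]
    exact E01 hp4 h1 h2 rfl hx.ne hy.ne q2 q3 rfl
  · intro h
    have hx1 := hx.odd (by omega)
    obtain ⟨q1, q2⟩ := caseC1 h1 h2 hc hd hx1 h hy rfl (by omega)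
    obtain ⟨u1, u2⟩ := E10 hp4 h1 h2 rfl hx.ne hy.ne q1 q2 rfl
    refine ⟨?_, u2⟩
    rw [u1, Odd.neg_one_zpow (by rw [Int.odd_iff]; omega)]
    ring
  · intro h
    have hx1 := hx.odd (by omega)
    obtain ⟨q1, q2, q3, -⟩ := caseA (κ := 1) h1 h2 hc hx1 (by omega) hy (Or.inl rfl) rfl (by omega)
    exact ⟨by omega, E00 hp4 h1 h2 rfl hx.ne hy.ne q2 (q3 rfl) rfl⟩
  · intro h
    have hy1 := hy.odd (by omega)
    obtain ⟨q1, q2⟩ := caseD4 h1 h2 hc hd hx (by omega) hy1 rfl hbb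
    have e : (2 * bb - 4) / 8 + x / 4 = ρ + x / 4 := by omega
    rw [e]
    exact E11 hp4 h1 h2 rfl hx.ne hy.ne q1 q2 rfl

end Pool.Agent.Results.MP_1f3cf9_nt.LucasQuarter
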